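import Pool.Agent.R743.PP.Conf
import Pool.Agent.R743.PP.Ring

/-!
# A Lorentzian 4-metric with exactly two almost Einstein scales that is not conformal to `g_pp`

The metric `(x ^ 3 - 3 x y ^ 2) dt ^ 2 + 2 dt dz + dx ^ 2 + dy ^ 2` on `ℝ⁴` is Lorentzian, Ricci
flat and not locally conformally flat, its almost Einstein scales are exactly `a + b t`, and no
point with nonzero Weyl tensor has a neighbourhood conformally isomorphic to an open subset of
`(ℝ⁴, g_pp)`.
-/

set_option linter.unusedSimpArgs false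

open scoped ContDiff Matrix
open Pool.Agent.R743.PP

namespace Pool.Agent.Results.MP_d87c46_gt.TwoEinsteinScales

/-- Real 4 by 4 matrices. -/
abbrev Mat4 : Type := Matrix (Fin 4) (Fin 4) ℝ

/-- A smooth field of matrices on `ℝ⁴` (coordinates `t, x, y, z` numbered `0, 1, 2, 3`). -/
def SmoothField (g : E4 → Mat4) : Prop := ∀ i j, ContDiff ℝ ∞ (fun x => g x i j)

/-- `g` is a Lorentzian metric: symmetric, and congruent to `diag(-1,1,1,1)` at each point. -/
def Lorentzian (g : E4 → Mat4) : Prop :=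
  ∀ x, (g x).IsSymm ∧ ∃ B : Mat4, IsUnit B.det ∧ Bᵀ * g x * B = Matrix.diagonal ![-1, 1, 1, 1]

/-- Christoffel symbols `Γ^k_{ij}` of the Levi-Civita connection. -/
noncomputable def chris (g : E4 → Mat4) (k i j : Fin 4) (x : E4) : ℝ :=
  (1 / 2) * ∑ l, (g x)⁻¹ k l *
    (pd i (fun y => g y j l) x + pd j (fun y => g y i l) x - pd l (fun y => g y i j) x)

/-- The Riemann tensor `R^l_{kij}`, where `R(∂_i, ∂_j) ∂_k = R^l_{kij} ∂_l`. -/
noncomputable def riem (g : E4 → Mat4) (l k i j : Fin 4) (x : E4) : ℝ :=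
  pd i (chris g l j k) x - pd j (chris g l i k) x
    + ∑ m, (chris g l i m x * chris g m j k x - chris g l j m x * chris g m i k x)

/-- The Ricci tensor. -/
noncomputable def ricci (g : E4 → Mat4) (k j : Fin 4) (x : E4) : ℝ := ∑ i, riem g i k i j x

/-- The scalar curvature. -/
noncomputable def scal (g : E4 → Mat4) (x : E4) : ℝ := ∑ i, ∑ j, (g x)⁻¹ i j * ricci g i j x

/-- The Schouten tensor in dimension 4. -/
noncomputable def schouten (g : E4 → Mat4) (i j : Fin 4) (x : E4) : ℝ :=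
  (1 / 2) * (ricci g i j x - scal g x / 6 * g x i j)

/-- The Weyl tensor `W_{lkij}`. -/
noncomputable def weyl (g : E4 → Mat4) (l k i j : Fin 4) (x : E4) : ℝ :=
  (∑ m, g x l m * riem g m k i j x)
    - (g x l i * schouten g k j x - g x l j * schouten g k i x
      + g x k j * schouten g l i x - g x k i * schouten g l j x)

/-- The Weyl tensor does not vanish at `p`. -/
def WeylNonzeroAt (g : E4 → Mat4) (p : E4) : Prop := ∃ l k i j, weyl g l k i j p ≠ 0

/-- The Hessian `∇∇σ`. -/
noncomputable def hess (g : E4 → Mat4) (s : E4 → ℝ) (i j : Fin 4) (x : E4) : ℝ :=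
  pd i (pd j s) x - ∑ k, chris g k i j x * pd k s x

/-- `∇∇σ + P σ`. -/
noncomputable def aeTensor (g : E4 → Mat4) (s : E4 → ℝ) (i j : Fin 4) (x : E4) : ℝ :=
  hess g s i j x + schouten g i j x * s x

/-- `σ` is an almost Einstein scale: smooth, and the trace-free part of `∇∇σ + P σ` vanishes. -/
def IsAlmostEinstein (g : E4 → Mat4) (s : E4 → ℝ) : Prop :=
  ContDiff ℝ ∞ s ∧ ∀ x i j, aeTensor g s i j x
    - (1 / 4) * (∑ k, ∑ l, (g x)⁻¹ k l * aeTensor g s k l x) * g x i j = 0

/-- The model metric `g_pp = e^{-√2 t} (x ^ 2 dt ^ 2 + 2 dt dz + dx ^ 2 + dy ^ 2)`. -/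
noncomputable def gpp (x : E4) : Mat4 :=
  Real.exp (-(Real.sqrt 2 * x 0)) • !![x 1 ^ 2, 0, 0, 1; 0, 1, 0, 0; 0, 0, 1, 0; 1, 0, 0, 0]

/-- The Jacobian matrix. -/
noncomputable def jac (F : E4 → E4) (x : E4) : Mat4 :=
  Matrix.of fun a i => fderiv ℝ F x (Pi.single i 1) a

/-- Some neighbourhood of `p` in `(ℝ⁴, g)` is conformally isomorphic to an open subset of
`(ℝ⁴, h)`. -/
def ConfIsoAt (g h : E4 → Mat4) (p : E4) : Prop :=
  ∃ (U V : Set E4) (F G : E4 → E4) (φ : E4 → ℝ), IsOpen U ∧ p ∈ U ∧ IsOpen V ∧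
    Set.MapsTo F U V ∧ Set.MapsTo G V U ∧ (∀ x ∈ U, G (F x) = x) ∧ (∀ y ∈ V, F (G y) = y) ∧
    ContDiffOn ℝ ∞ F U ∧ ContDiffOn ℝ ∞ G V ∧ ContDiffOn ℝ ∞ φ U ∧ (∀ x ∈ U, 0 < φ x) ∧
    ∀ x ∈ U, (jac F x)ᵀ * h (F x) * jac F x = φ x ^ 2 • g x

/-! ### The space of almost Einstein scales -/

theorem pd_add' {s u : E4 → ℝ} (hs : ContDiff ℝ ∞ s) (hu : ContDiff ℝ ∞ u) (i : Fin 4) :
    pd i (s + u) = pd i s + pd i u := by
  funext x
  unfold pd
  rw [fderiv_add (hs.differentiable (by simp) x) (hu.differentiable (by simp) x)]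
  rfl

theorem pd_smul' {s : E4 → ℝ} (hs : ContDiff ℝ ∞ s) (c : ℝ) (i : Fin 4) :
    pd i (c • s) = c • pd i s := by
  funext x
  unfold pd
  rw [fderiv_const_smul (hs.differentiable (by simp) x)]
  rfl

theorem contDiff_pd {s : E4 → ℝ} (hs : ContDiff ℝ ∞ s) (i : Fin 4) : ContDiff ℝ ∞ (pd i s) :=
  (hs.fderiv_right (m := ∞) (by simp)).clm_apply contDiff_const

theorem aeTensor_add (g : E4 → Mat4) {s u : E4 → ℝ} (hs : ContDiff ℝ ∞ s) (hu : ContDiff ℝ ∞ u)
    (i j : Fin 4) (x : E4) :
    aeTensor g (s + u) i j x = aeTensor g s i j x + aeTensor g u i j x := by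
  unfold aeTensor hess
  simp only [pd_add' hs hu, pd_add' (contDiff_pd hs _) (contDiff_pd hu _), Pi.add_apply, mul_add,
    Finset.sum_add_distrib]
  ring

theorem aeTensor_smul (g : E4 → Mat4) {s : E4 → ℝ} (hs : ContDiff ℝ ∞ s) (c : ℝ)
    (i j : Fin 4) (x : E4) :
    aeTensor g (c • s) i j x = c * aeTensor g s i j x := by
  unfold aeTensor hess
  simp only [pd_smul' hs, pd_smul' (contDiff_pd hs _), Pi.smul_apply, smul_eq_mul, mul_add,
    mul_sub, Finset.mul_sum]
  congr 1
  · congr 1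
    exact Finset.sum_congr rfl fun k _ => by ring
  · ring

/-- The real vector space of almost Einstein scales of `g` on `ℝ⁴`. -/
def aeSpace (g : E4 → Mat4) : Submodule ℝ (E4 → ℝ) where
  carrier := {s | IsAlmostEinstein g s}
  add_mem' := by
    rintro s u ⟨hs, hs'⟩ ⟨hu, hu'⟩
    refine ⟨hs.add hu, fun x i j => ?_⟩
    simp only [aeTensor_add g hs hu, mul_add, Finset.sum_add_distrib]
    linear_combination hs' x i j + hu' x i j
  zero_mem' := by
    refine ⟨contDiff_const, fun x i j => ?_⟩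
    have h0 : ∀ i j, aeTensor g (0 : E4 → ℝ) i j x = 0 := by
      intro i j
      have := aeTensor_smul g (s := (0 : E4 → ℝ)) contDiff_const 0 i j x
      rw [zero_smul, zero_mul] at this
      exact this
    simp [h0]
  smul_mem' := by
    rintro c s ⟨hs, hs'⟩
    refine ⟨contDiff_const.smul hs, fun x i j => ?_⟩
    simp only [aeTensor_smul g hs]
    have h1 : (∑ k, ∑ l, (g x)⁻¹ k l * (c * aeTensor g s k l x))
        = c * ∑ k, ∑ l, (g x)⁻¹ k l * aeTensor g s k l x := by
      simp only [Finset.mul_sum]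
      exact Finset.sum_congr rfl fun k _ => Finset.sum_congr rfl fun l _ => by ring
    rw [h1]
    linear_combination c * hs' x i j

/-! ### The wave metric -/

/-- The metric `(x ^ 3 - 3 x y ^ 2) dt ^ 2 + 2 dt dz + dx ^ 2 + dy ^ 2`. -/
def gw (x : E4) : Mat4 :=
  !![x 1 ^ 3 - 3 * x 1 * x 2 ^ 2, 0, 0, 1; 0, 1, 0, 0; 0, 0, 1, 0; 1, 0, 0, 0]

/-- The inverse metric. -/
def gi (x : E4) : Mat4 :=
  !![0, 0, 0, 1; 0, 1, 0, 0; 0, 0, 1, 0; 1, 0, 0, -(x 1 ^ 3 - 3 * x 1 * x 2 ^ 2)]

/-- The `x`-derivative of the profile. -/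
def PP (x : E4) : ℝ := 3 * x 1 ^ 2 - 3 * x 2 ^ 2

/-- The `y`-derivative of the profile. -/
def QQ (x : E4) : ℝ := -6 * x 1 * x 2

theorem gw_inv (x : E4) : (gw x)⁻¹ = gi x := by
  apply Matrix.inv_eq_right_inv
  ext i j
  fin_cases i <;> fin_cases j <;> simp [gw, gi, Matrix.mul_apply, Fin.sum_univ_four]

theorem hasFDeriv_coord (i : Fin 4) (x : E4) :
    HasFDerivAt (fun y : E4 => y i) (ContinuousLinearMap.proj (R := ℝ) (φ := fun _ => ℝ) i) x :=
  (ContinuousLinearMap.proj (R := ℝ) (φ := fun _ => ℝ) i).hasFDerivAt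

theorem pd_coord (i j : Fin 4) (x : E4) : pd i (fun y => y j) x = if j = i then 1 else 0 := by
  unfold pd
  rw [(hasFDeriv_coord j x).fderiv]
  simp [Pi.single_apply]

theorem pd_const (i : Fin 4) (c : ℝ) (x : E4) : pd i (fun _ => c) x = 0 := by
  unfold pd
  simp

theorem contDiff_coord (j : Fin 4) : ContDiff ℝ ∞ (fun y : E4 => y j) := contDiff_apply ℝ ℝ j

theorem diff_coord (j : Fin 4) (x : E4) : DifferentiableAt ℝ (fun y : E4 => y j) x :=
  (hasFDeriv_coord j x).differentiableAt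

theorem pd_of {f : E4 → ℝ} {f' : E4 →L[ℝ] ℝ} {x : E4} (h : HasFDerivAt f f' x) (i : Fin 4) :
    pd i f x = f' (Pi.single i 1) := by
  unfold pd
  rw [h.fderiv]

theorem pd_H (i : Fin 4) (x : E4) : pd i (fun y => y 1 ^ 3 - 3 * y 1 * y 2 ^ 2) x
    = (if i = 1 then PP x else 0) + (if i = 2 then QQ x else 0) := by
  have h1 := hasFDeriv_coord 1 x
  have h2 := hasFDeriv_coord 2 x
  have h := (h1.pow 3).sub ((h1.const_mul 3).mul (h2.pow 2))
  refine (pd_of h i).trans ?_
  fin_cases i <;> simp [PP, QQ, Pi.single_apply] <;> ring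

theorem pd_P (i : Fin 4) (x : E4) : pd i PP x
    = (if i = 1 then 6 * x 1 else 0) + (if i = 2 then -6 * x 2 else 0) := by
  have h1 := hasFDeriv_coord 1 x
  have h2 := hasFDeriv_coord 2 x
  have h := ((h1.pow 2).const_mul 3).sub ((h2.pow 2).const_mul 3)
  refine (pd_of h i).trans ?_
  fin_cases i <;> simp [Pi.single_apply] <;> ring

theorem pd_Q (i : Fin 4) (x : E4) : pd i QQ x
    = (if i = 1 then -6 * x 2 else 0) + (if i = 2 then -6 * x 1 else 0) := by
  have h1 := hasFDeriv_coord 1 x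
  have h2 := hasFDeriv_coord 2 x
  have h := (h1.const_mul (-6)).mul h2
  refine (pd_of h i).trans ?_
  fin_cases i <;> simp <;> ring

/-- Derivatives of the metric coefficients. -/
theorem pd_gw (i a b : Fin 4) (x : E4) : pd i (fun y => gw y a b) x
    = if a = 0 ∧ b = 0 then (if i = 1 then PP x else 0) + (if i = 2 then QQ x else 0) else 0 := by
  by_cases h : a = 0 ∧ b = 0
  · rw [if_pos h, h.1, h.2]
    exact pd_H i x
  · rw [if_neg h]
    have : (fun y => gw y a b) = fun _ => gw 0 a b := by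
      funext y
      fin_cases a <;> fin_cases b <;> simp [gw] at h ⊢
    rw [this, pd_const]

/-- Coefficient of `PP` in the Christoffel symbols. -/
noncomputable def cP (k i j : Fin 4) : ℝ :=
  (if k = 1 ∧ i = 0 ∧ j = 0 then -(1 / 2) else 0) +
    (if k = 3 ∧ i = 0 ∧ j = 1 then 1 / 2 else 0) + (if k = 3 ∧ i = 1 ∧ j = 0 then 1 / 2 else 0)

/-- Coefficient of `QQ` in the Christoffel symbols. -/
noncomputable def cQ (k i j : Fin 4) : ℝ :=
  (if k = 2 ∧ i = 0 ∧ j = 0 then -(1 / 2) else 0) +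
    (if k = 3 ∧ i = 0 ∧ j = 2 then 1 / 2 else 0) + (if k = 3 ∧ i = 2 ∧ j = 0 then 1 / 2 else 0)

theorem chris_gw (k i j : Fin 4) : chris gw k i j = fun x => cP k i j * PP x + cQ k i j * QQ x := by
  funext x
  unfold chris
  simp only [gw_inv, pd_gw, Fin.sum_univ_four]
  fin_cases k <;> fin_cases i <;> fin_cases j <;> simp [gi, cP, cQ]

theorem contDiff_H : ContDiff ℝ ∞ (fun y : E4 => y 1 ^ 3 - 3 * y 1 * y 2 ^ 2) :=
  ((contDiff_coord 1).pow 3).sub ((contDiff_const.mul (contDiff_coord 1)).mul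
    ((contDiff_coord 2).pow 2))

theorem contDiff_P : ContDiff ℝ ∞ PP :=
  (contDiff_const.mul ((contDiff_coord 1).pow 2)).sub
    (contDiff_const.mul ((contDiff_coord 2).pow 2))

theorem contDiff_Q : ContDiff ℝ ∞ QQ :=
  (contDiff_const.mul (contDiff_coord 1)).mul (contDiff_coord 2)

theorem pd_chris_gw (m k i j : Fin 4) (x : E4) :
    pd m (chris gw k i j) x = cP k i j * pd m PP x + cQ k i j * pd m QQ x := by
  rw [chris_gw]
  have h1 := (contDiff_P.differentiable (by simp) x).hasFDerivAt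
  have h2 := (contDiff_Q.differentiable (by simp) x).hasFDerivAt
  exact pd_of ((h1.const_mul (cP k i j)).add (h2.const_mul (cQ k i j))) m

theorem quad (P Q : ℝ) (l i j k : Fin 4) :
    ∑ m, ((cP l i m * P + cQ l i m * Q) * (cP m j k * P + cQ m j k * Q)
      - (cP l j m * P + cQ l j m * Q) * (cP m i k * P + cQ m i k * Q)) = 0 := by
  have c0 : ∀ a b, cP 0 a b = 0 := by intro a b; simp [cP]
  have d0 : ∀ a b, cQ 0 a b = 0 := by intro a b; simp [cQ]
  have c3 : ∀ a b, cP a b 3 = 0 := by intro a b; simp [cP]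
  have d3 : ∀ a b, cQ a b 3 = 0 := by intro a b; simp [cQ]
  have c1 : ∀ a b, cP 1 a b = if a = 0 ∧ b = 0 then -(1 / 2) else 0 := by
    intro a b; simp [cP]
  have d2 : ∀ a b, cQ 2 a b = if a = 0 ∧ b = 0 then -(1 / 2) else 0 := by
    intro a b; simp [cQ]
  have d1 : ∀ a b, cQ 1 a b = 0 := by intro a b; simp [cQ]
  have c2 : ∀ a b, cP 2 a b = 0 := by intro a b; simp [cP]
  have c01 : ∀ a b, cP a b 1 = if a = 3 ∧ b = 0 then 1 / 2 else 0 := by
    intro a b; simp [cP]
  have c02 : ∀ a b, cP a b 2 = 0 := by intro a b; simp [cP]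
  have d02 : ∀ a b, cQ a b 2 = if a = 3 ∧ b = 0 then 1 / 2 else 0 := by
    intro a b; simp [cQ]
  have d01 : ∀ a b, cQ a b 1 = 0 := by intro a b; simp [cQ]
  simp only [Fin.sum_univ_four, c0, d0, c3, d3, c1, c2, d1, d2, c01, c02, d01, d02]
  by_cases hi : i = 0 <;> by_cases hj : j = 0 <;> by_cases hk : k = 0 <;> by_cases hl : l = 3 <;>
    simp [hi, hj, hk, hl]

theorem riem_gw (l k i j : Fin 4) (x : E4) : riem gw l k i j x
    = (cP l j k * pd i PP x + cQ l j k * pd i QQ x)
      - (cP l i k * pd j PP x + cQ l i k * pd j QQ x) := by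
  unfold riem
  rw [pd_chris_gw, pd_chris_gw]
  simp only [chris_gw]
  rw [quad, add_zero]

theorem ricci_gw (k j : Fin 4) (x : E4) : ricci gw k j x = 0 := by
  unfold ricci
  simp only [riem_gw, Fin.sum_univ_four, pd_P, pd_Q]
  fin_cases k <;> fin_cases j <;> simp [cP, cQ]

theorem schouten_gw (i j : Fin 4) (x : E4) : schouten gw i j x = 0 := by
  unfold schouten scal
  simp [ricci_gw]

theorem weyl_gw (l k i j : Fin 4) (x : E4) :
    weyl gw l k i j x = ∑ m, gw x l m * riem gw m k i j x := by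
  unfold weyl
  simp [schouten_gw]

theorem weyl_axis (x : E4) (h1 : x 1 = 0) (h2 : x 2 = 0) (l k i j : Fin 4) :
    weyl gw l k i j x = 0 := by
  rw [weyl_gw]
  refine Finset.sum_eq_zero fun m _ => ?_
  rw [riem_gw, pd_P, pd_P, pd_Q, pd_Q]
  simp [h1, h2]

theorem weyl_1010 (x : E4) : weyl gw 1 0 1 0 x = -3 * x 1 := by
  rw [weyl_gw]
  simp only [riem_gw, Fin.sum_univ_four, pd_P, pd_Q]
  simp [gw, cP, cQ]
  ring

theorem weyl_1020 (x : E4) : weyl gw 1 0 2 0 x = 3 * x 2 := by
  rw [weyl_gw]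
  simp only [riem_gw, Fin.sum_univ_four, pd_P, pd_Q]
  simp [gw, cP, cQ]
  ring

theorem weylNonzero_iff (p : E4) : WeylNonzeroAt gw p ↔ (p 1 ≠ 0 ∨ p 2 ≠ 0) := by
  constructor
  · rintro ⟨l, k, i, j, h⟩
    by_contra hc
    push Not at hc
    exact h (weyl_axis p hc.1 hc.2 l k i j)
  · rintro (h | h)
    · exact ⟨1, 0, 1, 0, by rw [weyl_1010]; simpa using h⟩
    · exact ⟨1, 0, 2, 0, by rw [weyl_1020]; simpa using h⟩

theorem smooth_gw : SmoothField gw := by
  intro i j
  by_cases h : i = 0 ∧ j = 0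
  · rw [h.1, h.2]
    exact contDiff_H
  · have : (fun y => gw y i j) = fun _ => gw 0 i j := by
      funext y
      fin_cases i <;> fin_cases j <;> simp [gw] at h ⊢
    rw [this]
    exact contDiff_const

theorem lorentzian_gw : Lorentzian gw := by
  intro x
  constructor
  · ext i j
    fin_cases i <;> fin_cases j <;> simp [gw]
  · set H : ℝ := x 1 ^ 3 - 3 * x 1 * x 2 ^ 2 with hH
    -- columns: v0 with g(v0, v0) = -1, v3 with g(v3, v3) = 1, g(v0, v3) = 0
    refine ⟨!![1, 0, 0, 1; 0, 1, 0, 0; 0, 0, 1, 0; -(H + 1) / 2, 0, 0, (1 - H) / 2], ?_, ?_⟩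
    · rw [isUnit_iff_ne_zero]
      have : (!![1, 0, 0, 1; 0, 1, 0, 0; 0, 0, 1, 0; -(H + 1) / 2, 0, 0, (1 - H) / 2] :
          Mat4).det = 1 := by
        simp [Matrix.det_succ_row_zero, Fin.sum_univ_succ, Fin.succAbove]
        ring
      rw [this]
      exact one_ne_zero
    · ext i j
      fin_cases i <;> fin_cases j <;>
        simp [gw, Matrix.mul_apply, Fin.sum_univ_four, ← hH] <;> ring

/-! ### The almost Einstein scales of the wave metric -/

theorem aeTensor_gw (s : E4 → ℝ) (i j : Fin 4) (x : E4) :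
    aeTensor gw s i j x = pd i (pd j s) x
      - ∑ k, (cP k i j * PP x + cQ k i j * QQ x) * pd k s x := by
  unfold aeTensor hess
  simp only [schouten_gw, zero_mul, add_zero, chris_gw]

theorem scales (s : E4 → ℝ) (hs : IsAlmostEinstein gw s) :
    ∃ a b : ℝ, s = fun x => a + b * x 0 := by
  obtain ⟨hs, hA⟩ := hs
  have T : ∀ x i j, aeTensor gw s i j x = pd 0 (pd 3 s) x * gw x i j := by
    intro x i j
    have h03 := hA x 0 3
    have hij := hA x i j
    have g03 : gw x 0 3 = 1 := by simp [gw]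
    have e : aeTensor gw s 0 3 x = pd 0 (pd 3 s) x := by
      rw [aeTensor_gw]
      simp [cP, cQ]
    rw [g03, e] at h03
    linear_combination hij - gw x i j * h03
  -- the ring of smooth functions
  let U : TopologicalSpace.Opens E4 := ⊤
  have pdm : ∀ {f : E4 → ℝ} (hf : ContDiff ℝ ∞ f) (i : Fin 4),
      Dv U i (mk U f hf.contDiffOn) = mk U (pd i f) (contDiff_pd hf i).contDiffOn :=
    fun hf i => Dv_mk i _ _
  have c1 := contDiff_pd hs
  have c2 := fun i j => contDiff_pd (contDiff_pd hs i) j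
  obtain ⟨e1, e2, e3, e4⟩ := einstein_alg (Dv U) Dv_comm
    (mk U (fun y => y 1) (contDiff_coord 1).contDiffOn)
    (mk U (fun y => y 2) (contDiff_coord 2).contDiffOn)
    (by
      rw [pdm (contDiff_coord 1)]
      apply eq_of_ev
      intro z
      rw [ev_mk, map_one, pd_coord]
      simp)
    (by
      rw [pdm (contDiff_coord 1)]
      apply eq_of_ev
      intro z
      rw [ev_mk, map_zero, pd_coord]
      simp)
    (by
      rw [pdm (contDiff_coord 2)]
      apply eq_of_ev
      intro z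
      rw [ev_mk, map_zero, pd_coord]
      simp)
    (by
      rw [pdm (contDiff_coord 2)]
      apply eq_of_ev
      intro z
      rw [ev_mk, map_one, pd_coord]
      simp)
    (mk U s hs.contDiffOn) (Dv U 0 (Dv U 3 (mk U s hs.contDiffOn)))
    (by
      rw [pdm hs, pdm (c1 3)]
      apply eq_of_ev
      intro z
      rw [ev_mk, map_zero]
      have := T z 3 3
      rw [aeTensor_gw] at this
      simpa [Fin.sum_univ_four, cP, cQ, gw] using this)
    (by
      rw [pdm hs, pdm (c1 3)]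
      apply eq_of_ev
      intro z
      rw [ev_mk, map_zero]
      have := T z 1 3
      rw [aeTensor_gw] at this
      simpa [Fin.sum_univ_four, cP, cQ, gw] using this)
    (by
      rw [pdm hs, pdm (c1 3)]
      apply eq_of_ev
      intro z
      rw [ev_mk, map_zero]
      have := T z 2 3
      rw [aeTensor_gw] at this
      simpa [Fin.sum_univ_four, cP, cQ, gw] using this)
    (by
      rw [pdm hs, pdm (c1 2)]
      apply eq_of_ev
      intro z
      rw [ev_mk, map_zero]
      have := T z 1 2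
      rw [aeTensor_gw] at this
      simpa [Fin.sum_univ_four, cP, cQ, gw] using this)
    rfl
    (by
      rw [pdm hs, pdm hs, pdm (c1 1), pdm (c1 3)]
      apply eq_of_ev
      intro z
      rw [ev_mk, ev_mk]
      have := T z 1 1
      rw [aeTensor_gw] at this
      simpa [Fin.sum_univ_four, cP, cQ, gw] using this)
    (by
      rw [pdm hs, pdm hs, pdm (c1 2), pdm (c1 3)]
      apply eq_of_ev
      intro z
      rw [ev_mk, ev_mk]
      have := T z 2 2
      rw [aeTensor_gw] at this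
      simpa [Fin.sum_univ_four, cP, cQ, gw] using this)
    (by
      rw [pdm hs, pdm hs, pdm (c1 1)]
      apply eq_of_ev
      intro z
      simp only [map_mul, map_sub, map_pow, map_ofNat, ev_mk]
      have := T z 0 1
      rw [aeTensor_gw] at this
      simp [Fin.sum_univ_four, cP, cQ, gw, PP, QQ] at this
      linear_combination 2 * this)
    (by
      rw [pdm hs, pdm hs, pdm (c1 2)]
      apply eq_of_ev
      intro z
      simp only [map_mul, map_neg, map_pow, map_ofNat, ev_mk]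
      have := T z 0 2
      rw [aeTensor_gw] at this
      simp [Fin.sum_univ_four, cP, cQ, gw, PP, QQ] at this
      linear_combination 2 * this)
    (by
      rw [pdm hs, pdm hs, pdm hs, pdm hs, pdm (c1 3), pdm (c1 0)]
      apply eq_of_ev
      intro z
      simp only [map_add, map_sub, map_mul, map_neg, map_pow, map_ofNat, ev_mk]
      have := T z 0 0
      rw [aeTensor_gw] at this
      simp [Fin.sum_univ_four, cP, cQ, gw, PP, QQ] at this
      linear_combination 2 * this)
  rw [pdm hs] at e1 e2 e3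
  rw [pdm hs, pdm (c1 0)] at e4
  have p1 : ∀ x, pd 1 s x = 0 := fun x => congrArg (ev (U := U) ⟨x, TopologicalSpace.Opens.mem_top x⟩) e1
  have p2 : ∀ x, pd 2 s x = 0 := fun x => congrArg (ev (U := U) ⟨x, TopologicalSpace.Opens.mem_top x⟩) e2
  have p3 : ∀ x, pd 3 s x = 0 := fun x => congrArg (ev (U := U) ⟨x, TopologicalSpace.Opens.mem_top x⟩) e3
  have p4 : ∀ x, pd 0 (pd 0 s) x = 0 := fun x => congrArg (ev (U := U) ⟨x, TopologicalSpace.Opens.mem_top x⟩) e4
  have const : ∀ f : E4 → ℝ, ContDiff ℝ ∞ f → (∀ i x, pd i f x = 0) → ∀ x, f x = f 0 := by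
    intro f hf hz x
    refine is_const_of_fderiv_eq_zero (𝕜 := ℝ) (hf.differentiable (by simp)) (fun y => ?_) x 0
    apply ContinuousLinearMap.coe_injective
    apply LinearMap.pi_ext'
    intro i
    ext
    exact hz i y
  have sym : ∀ i x, pd i (pd 0 s) x = pd 0 (pd i s) x := fun i x =>
    pd_pd (U := U) hs.contDiffOn (TopologicalSpace.Opens.mem_top x) i 0
  have z0 : ∀ i x, pd i (pd 0 s) x = 0 := by
    intro i x
    rw [sym]
    fin_cases i
    · exact p4 x
    · change pd 0 (pd 1 s) x = 0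
      rw [show pd 1 s = fun _ => 0 from funext p1, pd_const]
    · change pd 0 (pd 2 s) x = 0
      rw [show pd 2 s = fun _ => 0 from funext p2, pd_const]
    · change pd 0 (pd 3 s) x = 0
      rw [show pd 3 s = fun _ => 0 from funext p3, pd_const]
  have cst := const (pd 0 s) (c1 0) z0
  set b := pd 0 s 0 with hb
  have hr : ContDiff ℝ ∞ (fun x : E4 => s x - b * x 0) :=
    hs.sub (contDiff_const.mul (contDiff_coord 0))
  have hz : ∀ i x, pd i (fun x : E4 => s x - b * x 0) x = 0 := by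
    intro i x
    have h1 := (hs.differentiable (by simp) x).hasFDerivAt
    have h2 := (hasFDeriv_coord 0 x).const_mul b
    refine (pd_of (h1.sub h2) i).trans ?_
    have h3 : fderiv ℝ s x (Pi.single i 1) = pd i s x := rfl
    simp only [sub_apply, h3]
    fin_cases i
    · simp [cst x]
    · simp [p1 x]
    · simp [p2 x]
    · simp [p3 x]
  have fin := const _ hr hz
  refine ⟨s 0, b, ?_⟩
  funext x
  have := fin x
  simp only [Pi.zero_apply, mul_zero, sub_zero] at this
  linear_combination this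

theorem affine_isAlmostEinstein (a b : ℝ) : IsAlmostEinstein gw (fun x => a + b * x 0) := by
  have h1 : ∀ i, pd i (fun x : E4 => a + b * x 0) = fun _ => if i = 0 then b else 0 := by
    intro i
    funext x
    have h2 := ((hasFDeriv_coord 0 x).const_mul b).const_add a
    refine (pd_of h2 i).trans ?_
    fin_cases i <;> simp
  have hA : ∀ i j x, aeTensor gw (fun x : E4 => a + b * x 0) i j x = 0 := by
    intro i j x
    rw [aeTensor_gw]
    simp only [h1, pd_const, Fin.sum_univ_four]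
    simp [cP, cQ]
  refine ⟨contDiff_const.add (contDiff_const.mul (contDiff_coord 0)), fun x i j => ?_⟩
  simp [hA]

theorem finrank_aeSpace : Module.finrank ℝ (aeSpace gw) = 2 := by
  have hli : LinearIndependent ℝ (![fun _ => 1, fun x => x 0] : Fin 2 → (E4 → ℝ)) := by
    rw [LinearIndependent.pair_iff]
    intro a b h
    have h0 := congrFun h 0
    have h1 := congrFun h (Pi.single 0 1)
    simp at h0 h1
    refine ⟨h0, ?_⟩
    rw [h0, zero_add] at h1
    exact h1
  have hspan : aeSpace gw = Submodule.span ℝ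
      (Set.range (![fun _ => 1, fun x => x 0] : Fin 2 → (E4 → ℝ))) := by
    apply le_antisymm
    · intro s hs
      obtain ⟨a, b, rfl⟩ := scales s hs
      rw [Matrix.range_cons, Matrix.range_cons, Matrix.range_empty, Set.union_empty]
      rw [Set.singleton_union, Submodule.mem_span_pair]
      refine ⟨a, b, ?_⟩
      funext x
      simp
    · rw [Submodule.span_le]
      rintro _ ⟨i, rfl⟩
      fin_cases i
      · have := affine_isAlmostEinstein 1 0
        have h2 : IsAlmostEinstein gw (fun _ => 1) := by simpa using this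
        exact h2
      · have := affine_isAlmostEinstein 0 1
        have h2 : IsAlmostEinstein gw (fun x => x 0) := by simpa using this
        exact h2
  rw [hspan, finrank_span_eq_card hli, Fintype.card_fin]

/-! ### No conformal isomorphism -/

theorem pd_comp {F : E4 → E4} {x : E4} (hF : DifferentiableAt ℝ F x) (k a : Fin 4) :
    pd k (fun y => F y a) x = fderiv ℝ F x (Pi.single k 1) a := by
  have h := (hasFDeriv_coord a (F x)).comp x hF.hasFDerivAt
  exact pd_of h k

theorem fderiv_sum {F : E4 → E4} {x : E4} (hF : DifferentiableAt ℝ F x) (v : E4) (a : Fin 4) :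
    fderiv ℝ F x v a = v 0 * pd 0 (fun y => F y a) x + v 1 * pd 1 (fun y => F y a) x
      + v 2 * pd 2 (fun y => F y a) x + v 3 * pd 3 (fun y => F y a) x := by
  have hv : v = v 0 • Pi.single 0 (1 : ℝ) + v 1 • Pi.single 1 1 + v 2 • Pi.single 2 1
      + v 3 • Pi.single 3 1 := by
    funext i
    fin_cases i <;> simp
  conv_lhs => rw [hv]
  simp only [map_add, map_smul, Pi.add_apply, Pi.smul_apply, smul_eq_mul, pd_comp hF]

theorem not_confIso (p : E4) (hp : p 1 ≠ 0 ∨ p 2 ≠ 0) : ¬ ConfIsoAt gw gpp p := by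
  rintro ⟨U, V, F, G, φ, hU, hpU, hV, hF, hG, hGF, hFG, sF, sG, sφ, hφ, hm⟩
  have dF : ∀ x ∈ U, DifferentiableAt ℝ F x := fun x hx =>
    (sF.contDiffAt (hU.mem_nhds hx)).differentiableAt (by simp)
  have dG : ∀ x ∈ V, DifferentiableAt ℝ G x := fun x hx =>
    (sG.contDiffAt (hV.mem_nhds hx)).differentiableAt (by simp)
  have inv1 : ∀ x ∈ U, ∀ v, fderiv ℝ F x (fderiv ℝ G (F x) v) = v := by
    intro x hx v
    have h1 : HasFDerivAt (F ∘ G) ((fderiv ℝ F x).comp (fderiv ℝ G (F x))) (F x) := by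
      apply HasFDerivAt.comp
      · rw [hGF x hx]; exact (dF x hx).hasFDerivAt
      · exact (dG _ (hF hx)).hasFDerivAt
    have h2 : HasFDerivAt (F ∘ G) (ContinuousLinearMap.id ℝ E4) (F x) := by
      refine (hasFDerivAt_id (𝕜 := ℝ) (F x)).congr_of_eventuallyEq ?_
      filter_upwards [hV.mem_nhds (hF hx)] with y hy using hFG y hy
    have h3 := h1.unique h2
    exact DFunLike.congr_fun h3 v
  have inv2 : ∀ x ∈ U, ∀ v, fderiv ℝ G (F x) (fderiv ℝ F x v) = v := by
    intro x hx v
    have h1 : HasFDerivAt (G ∘ F) ((fderiv ℝ G (F x)).comp (fderiv ℝ F x)) x :=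
      HasFDerivAt.comp x (dG _ (hF hx)).hasFDerivAt (dF x hx).hasFDerivAt
    have h2 : HasFDerivAt (G ∘ F) (ContinuousLinearMap.id ℝ E4) x := by
      refine (hasFDerivAt_id (𝕜 := ℝ) x).congr_of_eventuallyEq ?_
      filter_upwards [hU.mem_nhds hx] with y hy using hGF y hy
    have h3 := h1.unique h2
    exact DFunLike.congr_fun h3 v
  -- the prescribed vector and the Killing field of the model
  let w : E4 := ![0, p 2, -p 1, 0]
  let u : E4 := fderiv ℝ F p w
  let a : ℝ := u 0
  let b : ℝ := u 2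
  let d : ℝ := u 1 * Real.exp (-(F p 0))
  let c : ℝ := u 3 + u 1 * F p 1
  let Y : E4 → E4 := fun q => ![a, d * Real.exp (q 0), b, c - d * Real.exp (q 0) * q 1]
  let K : E4 → E4 := fun x => fderiv ℝ G (F x) (Y (F x))
  have hYp : Y (F p) = u := by
    have he : Real.exp (-(F p 0)) * Real.exp (F p 0) = 1 := by
      rw [← Real.exp_add]; simp
    funext i
    fin_cases i
    · rfl
    · change u 1 * Real.exp (-(F p 0)) * Real.exp (F p 0) = u 1
      rw [mul_assoc, he, mul_one]
    · rfl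
    · change u 3 + u 1 * F p 1 - u 1 * Real.exp (-(F p 0)) * Real.exp (F p 0) * F p 1 = u 3
      rw [mul_assoc (u 1), he]
      ring
  have hKp : K p = w := by
    change fderiv ℝ G (F p) (Y (F p)) = w
    rw [hYp]
    exact inv2 p hpU w
  -- smoothness
  have sFi : ∀ i, ContDiffOn ℝ ∞ (fun x => F x i) U := fun i => contDiffOn_pi.1 sF i
  have sE : ContDiffOn ℝ ∞ (fun x => Real.exp (F x 0)) U := Real.contDiff_exp.comp_contDiffOn (sFi 0)
  have sY : ContDiffOn ℝ ∞ (fun x => Y (F x)) U := by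
    rw [contDiffOn_pi]
    intro i
    fin_cases i
    · exact contDiffOn_const
    · exact contDiffOn_const.mul sE
    · exact contDiffOn_const
    · exact contDiffOn_const.sub ((contDiffOn_const.mul sE).mul (sFi 1))
  have sDG : ContDiffOn ℝ ∞ (fun x => fderiv ℝ G (F x)) U :=
    (sG.fderiv_of_isOpen (m := ∞) hV (by simp)).comp sF hF
  have sK : ∀ i, ContDiffOn ℝ ∞ (fun x => K x i) U := fun i =>
    contDiffOn_pi.1 (sDG.clm_apply sY) i
  have sps : ContDiffOn ℝ ∞ (fun x => φ x ^ 2 * Real.exp (Real.sqrt 2 * F x 0)) U :=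
    (sφ.pow 2).mul (Real.contDiff_exp.comp_contDiffOn (contDiffOn_const.mul (sFi 0)))
  have psne : ∀ x ∈ U, φ x ^ 2 * Real.exp (Real.sqrt 2 * F x 0) ≠ 0 := fun x hx =>
    (mul_pos (pow_pos (hφ x hx) 2) (Real.exp_pos _)).ne'
  have sps' : ContDiffOn ℝ ∞ (fun x => (φ x ^ 2 * Real.exp (Real.sqrt 2 * F x 0))⁻¹) U :=
    sps.inv psne
  -- the ring
  let O : TopologicalSpace.Opens E4 := ⟨U, hU⟩
  let X1 : Sm O := mk O (fun y => y 1) (contDiff_coord 1).contDiffOn
  let X2 : Sm O := mk O (fun y => y 2) (contDiff_coord 2).contDiffOn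
  have hX1 : ∀ i, Dv O i X1 = if i = 1 then 1 else 0 := by
    intro i
    rw [Dv_mk]
    apply eq_of_ev
    intro z
    rw [ev_mk, pd_coord]
    by_cases h : i = 1
    · simp [h]
    · rw [if_neg (fun h' => h h'.symm), if_neg h, map_zero]
  have hX2 : ∀ i, Dv O i X2 = if i = 2 then 1 else 0 := by
    intro i
    rw [Dv_mk]
    apply eq_of_ev
    intro z
    rw [ev_mk, pd_coord]
    by_cases h : i = 2
    · simp [h]
    · rw [if_neg (fun h' => h h'.symm), if_neg h, map_zero]
  have hKF : ∀ (e : Fin 4) (z : O), K z 0 * pd 0 (fun y => F y e) z + K z 1 * pd 1 (fun y => F y e) z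
      + K z 2 * pd 2 (fun y => F y e) z + K z 3 * pd 3 (fun y => F y e) z = Y (F z) e := by
    intro e z
    rw [← fderiv_sum (dF z z.2)]
    change fderiv ℝ F z (fderiv ℝ G (F z) (Y (F z))) e = _
    rw [inv1 z z.2]
  have evc : ∀ (r : ℝ) (z : O), ev z (algebraMap ℝ (Sm O) r) = r := fun r z => rfl
  have hmet : ∀ (z : O) (i j : Fin 4),
      F z 1 * F z 1 * pd i (fun y => F y 0) z * pd j (fun y => F y 0) z
        + pd i (fun y => F y 0) z * pd j (fun y => F y 3) z
        + pd i (fun y => F y 3) z * pd j (fun y => F y 0) z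
        + pd i (fun y => F y 1) z * pd j (fun y => F y 1) z
        + pd i (fun y => F y 2) z * pd j (fun y => F y 2) z
        = φ z ^ 2 * Real.exp (Real.sqrt 2 * F z 0) * gw z i j := by
    intro z i j
    have h := congrFun (congrFun (hm z z.2) i) j
    have he : Real.exp (-(Real.sqrt 2 * F z 0)) * Real.exp (Real.sqrt 2 * F z 0) = 1 := by
      rw [← Real.exp_add]; simp
    simp only [Matrix.mul_apply, Matrix.transpose_apply, Fin.sum_univ_four, gpp, jac,
      Matrix.smul_apply, smul_eq_mul, Matrix.of_apply, ← pd_comp (dF z z.2)] at h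
    simp at h
    linear_combination Real.exp (Real.sqrt 2 * F z 0) * h
      - (F z 1 * F z 1 * pd i (fun y => F y 0) z * pd j (fun y => F y 0) z
        + pd i (fun y => F y 0) z * pd j (fun y => F y 3) z
        + pd i (fun y => F y 3) z * pd j (fun y => F y 0) z
        + pd i (fun y => F y 1) z * pd j (fun y => F y 1) z
        + pd i (fun y => F y 2) z * pd j (fun y => F y 2) z) * he
  have key := conf_alg (Dv O) Dv_comm X1 X2
    (by rw [hX1]; rfl) (by rw [hX1]; rfl) (by rw [hX1]; rfl) (by rw [hX1]; rfl)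
    (by rw [hX2]; rfl) (by rw [hX2]; rfl) (by rw [hX2]; rfl) (by rw [hX2]; rfl)
    (mk O (fun x => F x 0) (sFi 0)) (mk O (fun x => F x 1) (sFi 1))
    (mk O (fun x => F x 2) (sFi 2)) (mk O (fun x => F x 3) (sFi 3))
    (mk O (fun x => K x 0) (sK 0)) (mk O (fun x => K x 1) (sK 1))
    (mk O (fun x => K x 2) (sK 2)) (mk O (fun x => K x 3) (sK 3))
    (algebraMap ℝ (Sm O) a) (algebraMap ℝ (Sm O) b) (algebraMap ℝ (Sm O) c)
    (algebraMap ℝ (Sm O) d) (mk O (fun x => Real.exp (F x 0)) sE)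
    (mk O (fun x => φ x ^ 2 * Real.exp (Real.sqrt 2 * F x 0)) sps)
    (mk O (fun x => (φ x ^ 2 * Real.exp (Real.sqrt 2 * F x 0))⁻¹) sps')
    (fun i => Derivation.map_algebraMap _ _) (fun i => Derivation.map_algebraMap _ _)
    (fun i => Derivation.map_algebraMap _ _) (fun i => Derivation.map_algebraMap _ _)
    (by
      intro i
      rw [Dv_mk, Dv_mk]
      apply eq_of_ev
      intro z
      rw [map_mul, ev_mk, ev_mk, ev_mk]
      have h1 : DifferentiableAt ℝ (fun x => F x 0) (z : E4) :=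
        ((sFi 0).contDiffAt (hU.mem_nhds z.2)).differentiableAt (by simp)
      refine (pd_of h1.hasFDerivAt.exp i).trans ?_
      rfl)
    (by
      rw [Dv_mk, Dv_mk, Dv_mk, Dv_mk]
      apply eq_of_ev
      intro z
      simp only [map_add, map_mul, ev_mk, evc]
      exact hKF 0 z)
    (by
      rw [Dv_mk, Dv_mk, Dv_mk, Dv_mk]
      apply eq_of_ev
      intro z
      simp only [map_add, map_mul, ev_mk, evc]
      exact hKF 1 z)
    (by
      rw [Dv_mk, Dv_mk, Dv_mk, Dv_mk]
      apply eq_of_ev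
      intro z
      simp only [map_add, map_mul, ev_mk, evc]
      exact hKF 2 z)
    (by
      rw [Dv_mk, Dv_mk, Dv_mk, Dv_mk]
      apply eq_of_ev
      intro z
      simp only [map_add, map_sub, map_mul, ev_mk, evc]
      exact hKF 3 z)
    (by
      apply eq_of_ev
      intro z
      rw [map_mul, ev_mk, ev_mk, map_one]
      exact inv_mul_cancel₀ (psne z z.2))
    ![![X1 ^ 3 - 3 * X1 * X2 ^ 2, 0, 0, 1], ![0, 1, 0, 0], ![0, 0, 1, 0], ![1, 0, 0, 0]] rfl
    (by
      intro i j
      rw [Dv_mk, Dv_mk, Dv_mk, Dv_mk, Dv_mk, Dv_mk, Dv_mk, Dv_mk]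
      apply eq_of_ev
      intro z
      simp only [map_add, map_mul, ev_mk]
      rw [hmet z i j]
      congr 1
      have h3 : ev z (3 : Sm O) = 3 := map_ofNat _ 3
      fin_cases i <;> fin_cases j <;> simp [gw, X1, X2, ev_mk, h3])
  have fin := congrArg (ev (⟨p, hpU⟩ : O)) key
  rw [map_mul, map_mul] at fin
  have fin' : p 2 * K p 1 = p 1 * K p 2 := fin
  rw [hKp] at fin'
  have fin2 : p 2 * p 2 = p 1 * (-p 1) := fin'
  rcases hp with h | h
  · have := mul_self_pos.2 h
    nlinarith [mul_self_nonneg (p 2)]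
  · have := mul_self_pos.2 h
    nlinarith [mul_self_nonneg (p 1)]

/-- **Disproof of Q1** (its negated form, for `M = ℝ⁴` and one global chart). There is a smooth
Lorentzian metric on `ℝ⁴`, in fact a Ricci-flat one, which is not locally conformally flat (its
Weyl tensor is not identically zero), whose space of almost Einstein scales is exactly
two-dimensional, and such that no point with nonzero Weyl tensor has a neighbourhood conformally
isomorphic to an open subset of `(ℝ⁴, g_pp)`. -/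
theorem result :
    ∃ g : E4 → Mat4, SmoothField g ∧ Lorentzian g ∧ (∀ k j x, ricci g k j x = 0) ∧
      (∃ p, WeylNonzeroAt g p) ∧ Module.finrank ℝ (aeSpace g) = 2 ∧
      ∀ p, WeylNonzeroAt g p → ¬ ConfIsoAt g gpp p := by
  refine ⟨gw, smooth_gw, lorentzian_gw, ricci_gw, ⟨Pi.single 1 1, ?_⟩, finrank_aeSpace,
    fun p hp => not_confIso p ((weylNonzero_iff p).1 hp)⟩
  rw [weylNonzero_iff]
  left
  simp

end Pool.Agent.Results.MP_d87c46_gt.TwoEinsteinScales
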